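import Mathlib
import Pool.Agent.Q70.WdB
import Pool.Agent.H98R3.PF.Iso

set_option autoImplicit false

/-!
# Antichains of free pmp actions of nonamenable groups

For every countable nonamenable group `Γ` and every standard non-atomic probability space `(X, μ)`
the preordered class of free measure-preserving actions of `Γ` on `(X, μ)`, with measure weak
containment, has width `|ℝ|`, and there is an antichain of cardinality `|ℝ|`.
-/

open MeasureTheory Set Filter Topology Cardinal

namespace Pool.Agent.Results.MP_651bcb_an.WidthContinuum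

/-- `Γ` is amenable: there is a finitely additive left invariant probability defined on all
subsets of `Γ`. -/
def Amenable (Γ : Type) [Group Γ] : Prop :=
  ∃ m : Set Γ → ℝ, (∀ A, 0 ≤ m A) ∧ m univ = 1 ∧
    (∀ A B, Disjoint A B → m (A ∪ B) = m A + m B) ∧
    ∀ (γ : Γ) (A : Set Γ), m ((fun x => γ * x) '' A) = m A

/-- A (Borel) measure-preserving action of `Γ` on `(X, μ)`. -/
structure PMPAction (Γ X : Type) [Group Γ] [MeasurableSpace X] (μ : Measure X) where
  /-- the map `x ↦ γ · x` -/
  act : Γ → X → X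
  one_act : ∀ x, act 1 x = x
  mul_act : ∀ γ δ x, act (γ * δ) x = act γ (act δ x)
  measurePreserving : ∀ γ, MeasurePreserving (act γ) μ μ

variable {Γ X : Type} [Group Γ] [MeasurableSpace X] {μ : Measure X}

/-- The action is free: for almost every `x`, `γ · x ≠ x` for all `γ ≠ e`. -/
def IsFree (a : PMPAction Γ X μ) : Prop := ∀ᵐ x ∂μ, ∀ γ : Γ, γ ≠ 1 → a.act γ x ≠ x

/-- Measure weak containment `b ≼ a` in the sense of Kechris. -/
def WeaklyContained (b a : PMPAction Γ X μ) : Prop :=
  ∀ (F : Finset Γ) (ε : ℝ), 0 < ε → ∀ (n : ℕ) (A : Fin n → Set X), (∀ i, MeasurableSet (A i)) →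
    ∃ B : Fin n → Set X, (∀ i, MeasurableSet (B i)) ∧ ∀ γ ∈ F, ∀ i j,
      |μ.real (b.act γ '' A i ∩ A j) - μ.real (a.act γ '' B i ∩ B j)| < ε

variable (Γ X μ) in
/-- The antichains of free actions: sets of free actions, any two distinct members of which are
incomparable for weak containment. -/
def FreeAntichains : Set (Set (PMPAction Γ X μ)) :=
  {S | (∀ a ∈ S, IsFree a) ∧
    ∀ a ∈ S, ∀ b ∈ S, a ≠ b → ¬ WeaklyContained a b ∧ ¬ WeaklyContained b a}

variable (Γ X μ) in
/-- The width of the class of free actions: the supremum of the cardinalities of the antichains. -/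
noncomputable def width : Cardinal.{0} := ⨆ S : FreeAntichains Γ X μ, #(S : Set (PMPAction Γ X μ))

lemma PMPAction.ext' {a b : PMPAction Γ X μ} (h : a.act = b.act) : a = b := by
  cases a; cases b; cases h; rfl

/-- There are at most `|ℝ|` actions. -/
theorem card_le [Countable Γ] [StandardBorelSpace X] : #(PMPAction Γ X μ) ≤ 𝔠 := by
  let f : PMPAction Γ X μ → (Γ × ℚ → {s : Set X // MeasurableSet s}) := fun a p =>
    ⟨a.act p.1 ⁻¹' {y | embeddingReal X y < p.2}, (a.measurePreserving p.1).measurable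
      (measurableSet_lt (measurableEmbedding_embeddingReal X).measurable measurable_const)⟩
  have hf : Function.Injective f := by
    intro a b hab
    apply PMPAction.ext'
    funext γ x
    apply (measurableEmbedding_embeddingReal X).injective
    by_contra hne
    have key : ∀ c d : PMPAction Γ X μ, f c = f d →
        ¬ embeddingReal X (c.act γ x) < embeddingReal X (d.act γ x) := by
      intro c d hcd hlt
      obtain ⟨q, hq1, hq2⟩ := exists_rat_btwn hlt
      have h1 := congrArg Subtype.val (congrFun hcd (γ, q))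
      have h2 : x ∈ c.act γ ⁻¹' {y | embeddingReal X y < q} := hq1
      have h3 : x ∈ d.act γ ⁻¹' {y | embeddingReal X y < q} := by
        have h4 : c.act γ ⁻¹' {y | embeddingReal X y < q}
          = d.act γ ⁻¹' {y | embeddingReal X y < q} := h1
        rw [← h4]; exact h2
      exact absurd (show embeddingReal X (d.act γ x) < q from h3) (not_lt.2 hq2.le)
    rcases lt_or_gt_of_ne hne with h | h
    · exact key a b hab h
    · exact key b a hab.symm h
  have hX : #{s : Set X // MeasurableSet s} ≤ 𝔠 := by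
    obtain ⟨b, hb, hgen⟩ := MeasurableSpace.CountablyGenerated.isCountablyGenerated (α := X)
    have h1 := MeasurableSpace.cardinal_measurableSet_le_continuum (s := b)
      ((mk_le_aleph0_iff.2 hb.to_subtype).trans aleph0_le_continuum)
    rw [hgen]
    exact h1
  calc #(PMPAction Γ X μ) ≤ #(Γ × ℚ → {s : Set X // MeasurableSet s}) := mk_le_of_injective hf
    _ = #{s : Set X // MeasurableSet s} ^ #(Γ × ℚ) := by rw [mk_arrow]; simp
    _ ≤ 𝔠 ^ ℵ₀ := by
        refine (power_le_power_right hX).trans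
          (power_le_power_left (by simpa using continuum_ne_zero) (mk_le_aleph0))
    _ = 𝔠 := continuum_power_aleph0

open Q70.Wd in
/-- The action on two copies of the Bernoulli shift with weights `t` and `1 - t`, transported to
`(X, μ)`. -/
noncomputable def twoCopies [Countable Γ] {t : ℝ} (e : X ≃ᵐ Cfg Γ × Bool)
    (he : MeasurePreserving e μ (nu Γ t)) : PMPAction Γ X μ where
  act γ x := e.symm (sh2 γ (e x))
  one_act x := by rw [sh2_one, e.symm_apply_apply]
  mul_act γ δ x := by rw [sh2_mul, e.apply_symm_apply]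
  measurePreserving γ := (he.symm e).comp ((mp_sh2 t γ).comp he)

open Q70.Wd in
theorem isFree_twoCopies [Countable Γ] {t : ℝ} (e : X ≃ᵐ Cfg Γ × Bool)
    (he : MeasurePreserving e μ (nu Γ t)) : IsFree (twoCopies e he) := by
  have h := he.quasiMeasurePreserving.ae (free_sh2 (G := Γ) t)
  filter_upwards [h] with x hx γ hγ hfix
  refine hx γ hγ ?_
  have h1 : e.symm (sh2 γ (e x)) = x := hfix
  calc sh2 γ (e x) = e (e.symm (sh2 γ (e x))) := (e.apply_symm_apply _).symm
    _ = e x := by rw [h1]

open Q70.Wd in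
theorem eq_of_weaklyContained [Countable Γ] (hΓ : ¬ Amenable Γ) {t t' : ℝ} (h0 : 0 < t)
    (h1 : t < 1 / 2) (h0' : 0 < t') (h1' : t' < 1 / 2)
    (e : X ≃ᵐ Cfg Γ × Bool) (he : MeasurePreserving e μ (nu Γ t))
    (e' : X ≃ᵐ Cfg Γ × Bool) (he' : MeasurePreserving e' μ (nu Γ t'))
    (h : WeaklyContained (twoCopies e he) (twoCopies e' he')) : t = t' := by
  refine rigid hΓ h0 h1 h0' h1' fun F ε hε => ?_
  have hT : MeasurableSet {p : Cfg Γ × Bool | p.2 = true} :=
    measurable_snd (measurableSet_singleton true)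
  obtain ⟨B, hB, hBF⟩ := h F ε hε 1 (fun _ => e ⁻¹' {p | p.2 = true})
    (fun _ => e.measurable hT)
  refine ⟨e' '' B 0, (MeasurableEquiv.measurableSet_image e').2 (hB 0), fun g hg => ?_⟩
  have h2 := hBF g hg 0 0
  have h3 : (twoCopies e he).act g '' (e ⁻¹' {p | p.2 = true}) ∩ (e ⁻¹' {p | p.2 = true})
      = e ⁻¹' {p | p.2 = true} := by
    apply inter_eq_right.2
    intro x hx
    refine ⟨e.symm (sh2 g⁻¹ (e x)), ?_, ?_⟩
    · show (e (e.symm (sh2 g⁻¹ (e x)))).2 = true
      rw [e.apply_symm_apply]; exact hx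
    · show e.symm (sh2 g (e (e.symm (sh2 g⁻¹ (e x))))) = x
      rw [e.apply_symm_apply, ← sh2_mul, mul_inv_cancel, sh2_one, e.symm_apply_apply]
  have h4 : μ.real (e ⁻¹' {p | p.2 = true}) = t := by
    rw [he.measureReal_preimage hT.nullMeasurableSet, nu_real h0.le (by linarith) hT]
    simp
  have h5 : (twoCopies e' he').act g '' B 0 ∩ B 0 = e' ⁻¹' (sh2 g '' (e' '' B 0) ∩ e' '' B 0) := by
    ext x
    constructor
    · rintro ⟨⟨y, hy, h6⟩, h7⟩
      refine ⟨⟨e' y, ⟨y, hy, rfl⟩, ?_⟩, ⟨x, h7, rfl⟩⟩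
      have h8 : e'.symm (sh2 g (e' y)) = x := h6
      rw [← h8, e'.apply_symm_apply]
    · rintro ⟨⟨_, ⟨y, hy, rfl⟩, h6⟩, ⟨z, hz, h7⟩⟩
      have h8 : z = x := e'.injective h7
      subst h8
      refine ⟨⟨y, hy, ?_⟩, hz⟩
      show e'.symm (sh2 g (e' y)) = z
      rw [h6, e'.symm_apply_apply]
  have hm : MeasurableSet (sh2 g '' (e' '' B 0) ∩ e' '' B 0) := by
    have h9 : MeasurableSet (e' '' B 0) := (MeasurableEquiv.measurableSet_image e').2 (hB 0)
    have : sh2 g '' (e' '' B 0) = sh2 g⁻¹ ⁻¹' (e' '' B 0) := by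
      ext q
      constructor
      · rintro ⟨r, hr, rfl⟩
        rw [mem_preimage, ← sh2_mul, inv_mul_cancel, sh2_one]; exact hr
      · intro hq
        exact ⟨_, hq, by rw [← sh2_mul, mul_inv_cancel, sh2_one]⟩
    rw [this]
    exact (measurable_sh2 g⁻¹ h9).inter h9
  rw [h3, h4, h5, he'.measureReal_preimage hm.nullMeasurableSet] at h2
  exact h2

theorem weaklyContained_refl (a : PMPAction Γ X μ) : WeaklyContained a a := by
  intro F ε hε n A hA
  exact ⟨A, hA, fun γ _ i j => by rw [sub_self, abs_zero]; exact hε⟩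

/-- **The width of the class of free actions.**  Let `Γ` be a countable nonamenable group and
`(X, μ)` a standard non-atomic probability space.  Then the width of the class of free
measure-preserving actions of `Γ` on `(X, μ)`, preordered by measure weak containment, is `|ℝ|`;
moreover there is an antichain of free actions of cardinality `|ℝ|`. -/
theorem result (Γ : Type) [Group Γ] [Countable Γ] (hΓ : ¬ Amenable Γ)
    (X : Type) [MeasurableSpace X] [StandardBorelSpace X] (μ : Measure X)
    [IsProbabilityMeasure μ] (hμ : ∀ x, μ {x} = 0) :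
    width Γ X μ = #ℝ ∧ ∃ S ∈ FreeAntichains Γ X μ, #S = #ℝ := by
  have hna : NullSingletonClass μ := ⟨hμ⟩
  have hex : ∀ t : Ioo (0 : ℝ) (1 / 2), ∃ e : X ≃ᵐ Q70.Wd.Cfg Γ × Bool,
      MeasurePreserving e μ (Q70.Wd.nu Γ t) := by
    intro t
    have h1 := Q70.Wd.nu_prob (G := Γ) (t := t) t.2.1.le (by linarith [t.2.2])
    have h2 := Q70.Wd.nu_atomless (G := Γ) t
    exact Pool.Agent.H98R3.PF.exists_mp_equiv2 μ (Q70.Wd.nu Γ t)
  choose e he using hex
  set φ : Ioo (0 : ℝ) (1 / 2) → PMPAction Γ X μ := fun t => twoCopies (e t) (he t) with hφ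
  have hkey : ∀ s t : Ioo (0 : ℝ) (1 / 2), WeaklyContained (φ s) (φ t) → s = t := by
    intro s t h
    exact Subtype.ext (eq_of_weaklyContained hΓ s.2.1 s.2.2 t.2.1 t.2.2 (e s) (he s) (e t) (he t) h)
  have hinj : Function.Injective φ := by
    intro s t hst
    exact hkey s t (by rw [← hst]; exact weaklyContained_refl _)
  have hS : range φ ∈ FreeAntichains Γ X μ := by
    refine ⟨?_, ?_⟩
    · rintro _ ⟨t, rfl⟩
      exact isFree_twoCopies (e t) (he t)
    · rintro _ ⟨s, rfl⟩ _ ⟨t, rfl⟩ hne
      exact ⟨fun h => hne (by rw [hkey s t h]), fun h => hne (by rw [hkey t s h])⟩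
  have hcard : #(range φ) = 𝔠 := by
    rw [mk_range_eq φ hinj]
    exact mk_Ioo_real (by norm_num)
  rw [mk_real]
  refine ⟨le_antisymm ?_ ?_, range φ, hS, hcard⟩
  · exact ciSup_le' fun S => (mk_set_le _).trans card_le
  · rw [← hcard]
    exact le_ciSup (f := fun S : FreeAntichains Γ X μ => #(S : Set (PMPAction Γ X μ)))
      (bddAbove_range _) ⟨range φ, hS⟩

end Pool.Agent.Results.MP_651bcb_an.WidthContinuum
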